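import Pool.Agent.J4.H59.CC.Main

/-!
# A countably compact topological group whose square is not countably compact, in ZFC

The group is `G = [J]^{<ω}` (the vector space over `ℤ/2` with basis `J`, `|J| = 𝔠`). The set `J`
contains free generators `x_n, y_n` and is closed under limits: each linearly independent sequence
`f` of elements of `G` (indexed by a countable set `Ω`, a disjoint union of finite blocks `I_n` with
`|I_n| > n w_n`, where `w_n = 2 (|I_0| + ... + |I_{n-1}|) + 1`) has a limit `j ∈ J` along an
ultrafilter `p_j`. The topology is the coarsest one for which all homomorphisms `φ : G → ℤ/2` with
`φ(j) = p_j`-lim `φ(f_j)` for all `j` are continuous. Hence `G` is countably compact. The `p_j`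
extend the filters of the sets which miss at most `k w_n` elements of `I_n`, `n ∈ A_j` large, for
some `k`, where the sets `A_j` are almost disjoint.

The main point is the selection lemma: for countably many `j` there are `U_j ∈ p_j` and a choice
`z_n ∈ {x_n, y_n}` such that the vectors `f_j(ω) + j` (`ω ∈ U_j`) and `z_n` are all together linearly
independent. So for all `u, v ∈ G` there is a continuous homomorphism `φ` with `φ(u) = φ(v) = 0` and
`φ(z_n) = 1` for almost all `n`, and the sequence `(x_n, y_n)` has no accumulation point in `G × G`.
In the proof of the lemma, a block of a linearly independent sequence is divided in a part which is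
independent modulo the span of the `x_n` and a part which is independent modulo the span of the
`y_n` (expansion of a determinant), and one of the two parts is chosen by `p_j`; a part of the block
is dropped in order to be independent of the finitely many vectors chosen before (exchange).
-/

set_option autoImplicit false

namespace Pool.Agent.Results.MP_672973_lc.SquareNotCountablyCompact

/-- In ZFC there is a countably compact (Tikhonov) topological group `G` such that `G × G` is not
countably compact. -/
theorem result : ∃ (G : Type) (_ : CommGroup G) (_ : TopologicalSpace G), IsTopologicalGroup G ∧
    T35Space G ∧ CountablyCompactSpace G ∧ ¬ CountablyCompactSpace (G × G) :=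
  Pool.Agent.J4.H59.CC.main

end Pool.Agent.Results.MP_672973_lc.SquareNotCountablyCompact
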